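import Pool.Agent.H63.SEP.Stmts2

/-!
Project SEP, module BRG: absoluteness of the existence of infinite paths.
-/

set_option linter.unusedVariables false
set_option synthInstance.maxSize 100000

namespace SW.SEP

open SW

theorem sep_brg (hT : TEFStmt) (hD : DICStmt) : BRGStmt := by
  intro K N _ _ _ _ j hj X x0 R R' hR hRR hx0 ⟨f, hf0, hf⟩
  have T := hT K N j hj
  rcases hD K X x0 R hR hx0 with h | ⟨U, r, hUX, hx0U, hord, hstep⟩
  · exact h
  exfalso
  have hU : ∀ n : N, E n om → E (app f n) (j U) := by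
    refine om_ind (C := fun n : N => E (app f n) (j U)) inferInstance ?_ ?_
    · rw [hf0, hj.mem]
      exact hx0U
    · intro n hn ih
      obtain ⟨a, ha, hae⟩ := T.mem'.1 ih
      obtain ⟨b, hb, hbe⟩ := T.mem'.1 (hf (suc n) (suc_mem_om hn)).1
      have h1 := (hf n hn).2
      rw [hae, hbe] at h1
      have h2 := hRR a b (hUX a ha) hb h1
      rw [hbe, hj.mem]
      exact (hstep a b ha hb h2).1
  obtain ⟨α, ⟨n, hn, hα⟩, hmin⟩ := mem_min
    (C := fun α : N => ∃ n : N, E n om ∧ α = app (j r) (app f n)) inferInstance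
    ⟨app (j r) (app f emp), emp, emp_mem_om, rfl⟩
  obtain ⟨a, ha, hae⟩ := T.mem'.1 (hU n hn)
  obtain ⟨b, hb, hbe⟩ := T.mem'.1 (hU (suc n) (suc_mem_om hn))
  have h1 := (hf n hn).2
  rw [hae, hbe] at h1
  have h2 := hRR a b (hUX a ha) (hUX b hb) h1
  have h3 := (hstep a b ha (hUX b hb) h2).2
  refine hmin (j (app r b)) ?_ ⟨suc n, suc_mem_om hn, ?_⟩
  · rw [hα, hae, ← T.app, hj.mem]
    exact h3
  · rw [hbe, T.app]

end SW.SEP
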