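import Pool.Agent.H63.SEP.Stmts2

/-!
Project SEP, module BRP: a tree of finite sequences of natural numbers with a branch in the larger
model has a branch in the smaller model.
-/

set_option linter.unusedVariables false
set_option synthInstance.maxSize 100000

namespace SW.SEP

open SW

section
variable {M : Type} [SetStr M] [ZF M]

theorem dmn_emp' : dmn (emp : M) = emp := by
  refine eq_emp fun z hz => ?_
  rw [mem_dmn] at hz
  obtain ⟨y, hy⟩ := hz
  exact not_mem_emp _ hy

theorem res_emp' (v : M) : res v emp = emp := by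
  refine eq_emp fun z hz => ?_
  rw [mem_res] at hz
  obtain ⟨_, x, y, hx, _⟩ := hz
  exact not_mem_emp _ hx

/-- the union of a path of finite sequences -/
theorem path_union (S : SqFacts M) {A f : M} (h0 : app f emp = emp)
    (hA : ∀ n, E n om → E (app f n) (SQ A))
    (hs : ∀ n, E n om → Sub (app f n) (app f (suc n)) ∧
      dmn (app f (suc n)) = suc (dmn (app f n))) :
    ∃ v, Fnc om A v ∧ ∀ n, E n om → res v n = app f n := by
  have hd : ∀ n : M, E n om → dmn (app f n) = n := by
    refine om_ind (C := fun n : M => dmn (app f n) = n) inferInstance ?_ ?_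
    · rw [h0, dmn_emp']
    · intro n hn ih
      rw [(hs n hn).2, ih]
  have hm : ∀ n : M, E n om → ∀ m, E m n → Sub (app f m) (app f n) := by
    refine om_ind (C := fun n : M => ∀ m, E m n → Sub (app f m) (app f n)) inferInstance ?_ ?_
    · intro m hm
      exact absurd hm (not_mem_emp m)
    · intro n hn ih m hm
      rw [mem_suc] at hm
      rcases hm with hm | rfl
      · exact Sub.trans (ih m hm) (hs n hn).1
      · exact (hs m hn).1
  have hF : ∀ n : M, E n om → Fnc n A (app f n) := by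
    intro n hn
    have := (S.dm (hA n hn)).2
    rwa [hd n hn] at this
  have hcmp : ∀ m n : M, E m om → E n om → Sub (app f m) (app f n) ∨
      Sub (app f n) (app f m) := by
    intro m n hm' hn'
    rcases (Ord_nat hm').tri (Ord_nat hn') with h | h | h
    · exact Or.inl (hm n hn' m h)
    · rw [h]; exact Or.inl (Sub.refl _)
    · exact Or.inr (hm m hm' n h)
  have hv : ∀ z : M, E z (sUn (img om (fun n => app f n))) ↔ ∃ n, E n om ∧ E z (app f n) := by
    intro z
    rw [mem_sUn]
    constructor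
    · rintro ⟨y, hy, hz⟩
      rw [mem_img] at hy
      obtain ⟨n, hn, rfl⟩ := hy
      exact ⟨n, hn, hz⟩
    · rintro ⟨n, hn, hz⟩
      exact ⟨app f n, by rw [mem_img]; exact ⟨n, hn, rfl⟩, hz⟩
  have huniq : ∀ x y y' : M, E (opair x y) (sUn (img om (fun n => app f n))) →
      E (opair x y') (sUn (img om (fun n => app f n))) → y = y' := by
    intro x y y' h1 h2
    rw [hv] at h1 h2
    obtain ⟨n, hn, h1⟩ := h1
    obtain ⟨m, hm', h2⟩ := h2
    rcases hcmp m n hm' hn with h | h
    · exact (hF n hn).2.2 x y y' h1 (h _ h2)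
    · exact (hF m hm').2.2 x y y' (h _ h1) h2
  refine ⟨sUn (img om (fun n => app f n)), ⟨?_, ?_, huniq⟩, ?_⟩
  · intro z hz
    rw [hv] at hz
    obtain ⟨n, hn, hz⟩ := hz
    obtain ⟨x, y, hx, hy, e⟩ := (hF n hn).1 z hz
    exact ⟨x, y, Trans_om n hn x hx, hy, e⟩
  · intro x hx
    obtain ⟨y, hy⟩ := (hF (suc x) (suc_mem_om hx)).2.1 x (by simp)
    exact ⟨y, (hv _).2 ⟨suc x, suc_mem_om hx, hy⟩⟩
  · intro n hn
    refine ext fun z => ?_
    rw [mem_res]
    constructor
    · rintro ⟨hz, x, y, hx, rfl⟩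
      obtain ⟨y', hy'⟩ := (hF n hn).2.1 x hx
      rw [huniq x y y' hz ((hv _).2 ⟨n, hn, hy'⟩)]
      exact hy'
    · intro hz
      obtain ⟨x, y, hx, hy, e⟩ := (hF n hn).1 z hz
      exact ⟨(hv _).2 ⟨n, hn, hz⟩, x, y, hx, e⟩

end

theorem sep_brp (hT : TEFStmt) (hG : TEGStmt) (hS : SQFStmt) (hB : BRGStmt) : BRPStmt := by
  intro K N _ _ _ _ j hj T ⟨v, hv, hvT⟩
  have TF := hT K N j hj
  have TG := hG K N j hj
  have SN := hS N
  have SK := hS K
  obtain ⟨f, hf0, hf⟩ := hB K N j hj (SQ om) emp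
    (fun s t => E s T ∧ E t T ∧ Sub s t ∧ dmn t = suc (dmn s))
    (fun s t => E s (j T) ∧ E t (j T) ∧ Sub s t ∧ dmn t = suc (dmn s)) inferInstance
    (by
      rintro a b ha hb ⟨h1, h2, h3, h4⟩
      refine ⟨(hj.mem _ _).1 h1, (hj.mem _ _).1 h2, TF.sub.1 h3, hj.inj _ _ ?_⟩
      rw [TF.dmn, TF.suc, TF.dmn, h4]) SK.nil
    (by
      have happ : ∀ n : N, E n om → app (gr om (fun n : N => res v n)) n = res v n :=
        fun n hn => app_gr inferInstance hn
      refine ⟨gr om (fun n => res v n), ?_, ?_⟩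
      · rw [happ emp emp_mem_om, res_emp', TF.emp]
      · intro n hn
        have hn' := suc_mem_om hn
        rw [happ n hn, happ (suc n) hn', TG.SQ, TF.om]
        refine ⟨(SN.rsi hv hn).1, hvT n hn, hvT _ hn', ?_, ?_⟩
        · intro z hz
          rw [mem_res] at hz ⊢
          obtain ⟨h1, x, y, hx, e⟩ := hz
          exact ⟨h1, x, y, mem_suc.2 (Or.inl hx), e⟩
        · rw [(SN.rsi hv hn).2, (SN.rsi hv hn').2])
  obtain ⟨w, hw, hw'⟩ := path_union SK hf0 (fun n hn => (hf n hn).1)
    (fun n hn => (hf n hn).2.2.2)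
  refine ⟨w, hw, fun n hn => ?_⟩
  rw [hw' n hn]
  exact (hf n hn).2.1

end SW.SEP
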