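import Pool.Agent.H63.SEP.Stmts2
import Pool.Agent.H13.MA.Stmts

/-!
Project SEP, modules UPW and FMI: forcing over a subsystem, forcing and isomorphisms.
-/

set_option linter.unusedVariables false
set_option synthInstance.maxSize 100000

namespace SW.SEP

open SW

theorem cond_mono {M : Type} [SetStr M] [ZF M] {J K p : M} (h : Sub J K) (hp : E p (PS J)) :
    E p (PS K) := by
  rw [mem_PS] at hp ⊢
  obtain ⟨⟨h1, h2⟩, h3⟩ := hp
  refine ⟨⟨h1, fun a ha => ?_⟩, h3⟩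
  rcases h2 a ha with h4 | ⟨e, v, he, hv, e1⟩ | ⟨e, z, j, he, hz, hj, e1⟩
  · exact Or.inl h4
  · exact Or.inr (Or.inl ⟨e, v, h e he, hv, e1⟩)
  · exact Or.inr (Or.inr ⟨e, z, j, h e he, hz, hj, e1⟩)

theorem sep_upw (hF : FRXStmt) (hS : SHOStmt) (hX : SBXStmt) (hA : ACXStmt) : UPWStmt := by
  intro M _ _ _ J K p T x hJ hK hJK hT hx hp h
  rw [hF M K p T x (cond_mono hJK hp)]
  intro G hG hGp inst
  have : ZFC (Ext (PF K) G) := hA M (PF K) G hG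
  obtain ⟨hG', hj⟩ := hX M J K G hJ hK hJK hG
  have : ZFC (Ext (PF J) (Gr J G)) := hA M (PF J) (Gr J G) hG'
  obtain ⟨j, hj1, hj2, hj3, hj4⟩ := hj
  have h1 := (hF M J p T x hp).1 h (Gr J G) hG' ⟨hp, hGp⟩
  have h2 := hS _ _ j hj1 hj3 _ _ h1
  rw [hj4 _ _ hT, hj4 _ _ hx] at h2
  exact h2

theorem sep_fmi (hF : FRXStmt) (hS : SHOStmt) (hX : ISXStmt) (hI : ISFStmt) (hA : ACXStmt) :
    FMIStmt := by
  intro M _ _ _ g J K p T x hJ hK hg hT hx hp h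
  have I := hI M g J K hJ hK hg
  rw [hF M K _ _ _ (I.act_in hp)]
  intro G hG hGp inst
  have : ZFC (Ext (PF K) G) := hA M (PF K) G hG
  obtain ⟨hG', hj⟩ := hX M g J K G hJ hK hg hG
  have : ZFC (Ext (PF J) (fun p => E p (PS J) ∧ G (act g p))) := hA M (PF J) _ hG'
  obtain ⟨j, hj1, hj2, hj3, hj4⟩ := hj
  have h1 := (hF M J p T x hp).1 h _ hG' ⟨hp, hGp⟩
  have h2 := hS _ _ j hj1 hj3 _ _ h1
  rw [hj4 _ _ hT, hj4 _ _ hx] at h2
  exact h2

end SW.SEP
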